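import Pool.Agent.Lib.MP_675cd9_nt.Fin

set_option autoImplicit false

namespace Pool.Agent.Results.MP_675cd9_nt.Dichotomy

open Pool.Agent.Lib.MP_675cd9_nt

/-- Structure of a counterexample `x ∈ (M' ∩ L) \ L'`. Either (B) `x` is the attained Markov value
of a wandering sequence whose right tail is not eventually periodic, or (A) `x` is isolated from
the right in `M` and is the Markov value of a periodic sequence with all top positions even, an exit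
and an entrance at level `x`, and no non-periodic loop at level `x + δ`. -/
theorem result (x : ℝ) (hL : x ∈ lagrange) (hM : x ∈ derivedSet markov)
    (hI : x ∉ derivedSet lagrange) :
    (∃ θ : ℤ → ℕ+, Top θ x ∧ ¬EvPer θ ∧ Filter.atTop.limsup (lam θ) < x ∧
      ∃ δ > 0, ∃ R : ℕ, ∀ s : ℤ → ℕ+, (∀ n, lam s n < x + δ) → ∀ a b : ℤ, a + R < b →
        (∀ i : ℤ, |i| ≤ R → s (a + i) = θ i) → ¬∀ i : ℤ, |i| ≤ R → s (b + i) = θ i) ∨
    ((∃ δ > 0, ∀ y ∈ markov, x < y → x + δ ≤ y) ∧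
      ∃ φ η ζ : ℤ → ℕ+, Per φ ∧ Top φ x ∧ (∀ n, lam φ n = x → Even n) ∧
        (∀ n, lam η n ≤ x) ∧ (∀ n ≤ 0, η n = φ n) ∧ η ≠ φ ∧
        (∀ n, lam ζ n ≤ x) ∧ (∀ n ≥ 0, ζ n = φ n) ∧ ζ ≠ φ ∧
        ∃ δ > 0, ∀ s : ℤ → ℕ+, (∀ n, lam s n < x + δ) → (∃ a i, ∀ n ≤ a, s n = φ (n + i)) →
          (∃ b j, ∀ n ≥ b, s n = φ (n + j)) → Per s) := by
  by_cases hB : ∀ θ, Top θ x → EvPer θ
  swap
  · push Not at hB
    obtain ⟨θ, h1, h2⟩ := hB
    exact .inl ⟨θ, h1, h2, typeB hI h1 h2⟩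
  have hA := typeA fun θ => top_per hL hI hB
  refine .inr ⟨?_, ?_⟩
  · by_contra! h
    have : (nhdsWithin x (Set.Ioi x) ⊓ Filter.principal markov).NeBot := by
      refine Filter.frequently_iff_neBot.1 (frequently_nhdsWithin_iff.2
        (Metric.nhds_basis_ball.frequently_iff.2 fun ε hε => ?_))
      obtain ⟨y, h1, h2, h3⟩ := h ε hε
      exact ⟨y, by rw [Metric.mem_ball, Real.dist_eq, abs_lt]; constructor <;> linarith, h1, h2⟩
    obtain ⟨U, hU⟩ := Ultrafilter.exists_le (nhdsWithin x (Set.Ioi x) ⊓ Filter.principal markov)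
    obtain ⟨y, h1, h2⟩ := ((hA U (hU.trans (inf_le_inf_right _ (nhdsGT_le_nhdsNE x)))).1.and
      ((hU.trans inf_le_left) self_mem_nhdsWithin)).exists
    exact lt_asymm h1 h2
  · obtain ⟨U, hU⟩ := Ultrafilter.exists_le _ (h := hM)
    obtain ⟨-, φ, η, ζ, h1, h2, h3, h4, h5, h6, h7, h8⟩ := hA U hU
    obtain ⟨δ, hδ, h9⟩ := no_loop hI
    exact ⟨φ, η, ζ, h1, h2, fun n => top_even h1 h2.1 h3 h4 h5, h3, h4, h5, h6, h7, h8, δ, hδ,
      fun s => h9 s φ h1 h2.1⟩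

end Pool.Agent.Results.MP_675cd9_nt.Dichotomy
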